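import Pool.Agent.Y851.DK.Stm

/-!
# Project DK: the average over one variable
-/

set_option autoImplicit false

namespace Pool.Agent.Y185.DK.AV

open Finset Filter Pool.Agent.Y851.DK

theorem exp_le (c : ℝ) (t : ℝ) (ht : 0 ≤ t) (htc : t ≤ c) :
    Real.exp t ≤ 1 + t * Real.exp c := by
  have h1 : 1 - t ≤ Real.exp (-t) := by
    have := Real.add_one_le_exp (-t)
    linarith
  have h2 : Real.exp (-t) * Real.exp t = 1 := by
    rw [← Real.exp_add]
    simp
  have h3 : (1 - t) * Real.exp t ≤ Real.exp (-t) * Real.exp t :=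
    mul_le_mul_of_nonneg_right h1 (Real.exp_pos t).le
  rw [h2] at h3
  have h4 : t * Real.exp t ≤ t * Real.exp c :=
    mul_le_mul_of_nonneg_left (Real.exp_le_exp.2 htc) ht
  linarith

theorem card_pf (m : ℕ) (hm : m ≠ 0) (X : ℝ) (hX : 1 ≤ X) (hmX : (m : ℝ) ≤ X ^ 4) :
    (m.primeFactors.card : ℝ) ≤ 6 * Real.log X := by
  have h1 : 2 ^ m.primeFactors.card ≤ m := by
    calc 2 ^ m.primeFactors.card ≤ ∏ p ∈ m.primeFactors, p :=
          Finset.pow_card_le_prod _ _ _ (fun p hp => (Nat.prime_of_mem_primeFactors hp).two_le)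
      _ ≤ m := Nat.le_of_dvd (Nat.pos_of_ne_zero hm) (Nat.prod_primeFactors_dvd m)
  have h2 : (m.primeFactors.card : ℝ) * Real.log 2 ≤ 4 * Real.log X := by
    have h3 : Real.log ((2 : ℝ) ^ m.primeFactors.card) ≤ Real.log (X ^ 4) :=
      Real.log_le_log (by positivity) (le_trans (by exact_mod_cast h1) hmX)
    rw [Real.log_pow, Real.log_pow] at h3
    push_cast at h3
    exact h3
  have h3 := Real.log_two_gt_d9
  have h4 : 0 ≤ Real.log X := Real.log_nonneg hX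
  have h5 : (0 : ℝ) ≤ m.primeFactors.card := Nat.cast_nonneg _
  nlinarith

/-- solutions of the congruences -/
theorem count (s : Finset ℕ) (hs : ∀ p ∈ s, p.Prime) (α β : ℕ) (hα : ∀ p ∈ s, ¬ p ∣ α) (M : ℕ) :
    (((Icc 1 M).filter (fun x : ℕ => ∀ p ∈ s, p ∣ ((α : ℤ) * (x : ℤ) - (β : ℤ)).natAbs)).card : ℝ) ≤
      M * ∏ p ∈ s, (1 / (p : ℝ)) + 1 := by
  set d : ℕ := ∏ p ∈ s, p with hd
  have hd0 : 0 < d := Finset.prod_pos fun p hp => (hs p hp).pos
  have hcop : Nat.Coprime d α := Nat.Coprime.prod_left fun p hp =>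
    (Nat.Prime.coprime_iff_not_dvd (hs p hp)).2 (hα p hp)
  have hdv : ∀ x : ℕ, (∀ p ∈ s, p ∣ ((α : ℤ) * (x : ℤ) - (β : ℤ)).natAbs) →
      (d : ℤ) ∣ (α : ℤ) * (x : ℤ) - (β : ℤ) := by
    intro x hx
    rw [Int.natCast_dvd]
    exact Finset.prod_primes_dvd _ (fun p hp => (hs p hp).prime) hx
  have h1 : ((Icc 1 M).filter (fun x : ℕ => ∀ p ∈ s, p ∣ ((α : ℤ) * (x : ℤ) -
      (β : ℤ)).natAbs)).card ≤ M / d + 1 := by
    rw [← Finset.card_range (M / d + 1)]
    refine Finset.card_le_card_of_injOn (fun x => x / d) ?_ ?_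
    · intro x hx
      rw [Finset.mem_coe, Finset.mem_filter, Finset.mem_Icc] at hx
      rw [Finset.mem_coe, Finset.mem_range]
      exact Nat.lt_succ_of_le (Nat.div_le_div_right hx.1.2)
    · intro x hx y hy hxy
      rw [Finset.mem_coe, Finset.mem_filter] at hx hy
      have h2 := dvd_sub (hdv y hy.2) (hdv x hx.2)
      have h3 : (α : ℤ) * (y : ℤ) - (β : ℤ) - ((α : ℤ) * (x : ℤ) - (β : ℤ)) = α * (y - x) := by ring
      rw [h3] at h2
      have h4 : (d : ℤ) ∣ (y : ℤ) - x := (Nat.isCoprime_iff_coprime.2 hcop).dvd_of_dvd_mul_left h2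
      have h5 : x ≡ y [MOD d] := Nat.modEq_iff_dvd.2 h4
      have h6 : x % d = y % d := h5
      simp only at hxy
      rw [← Nat.div_add_mod x d, ← Nat.div_add_mod y d, hxy, h6]
  have h2 : (((M / d : ℕ)) : ℝ) ≤ M / d := Nat.cast_div_le
  have h3 : ∏ p ∈ s, (1 / (p : ℝ)) = 1 / (d : ℝ) := by
    rw [hd]
    push_cast
    rw [Finset.prod_div_distrib, Finset.prod_const_one]
  rw [h3]
  calc (((Icc 1 M).filter (fun x : ℕ => ∀ p ∈ s, p ∣ ((α : ℤ) * (x : ℤ) -
      (β : ℤ)).natAbs)).card : ℝ) ≤ ((M / d + 1 : ℕ) : ℝ) := by exact_mod_cast h1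
    _ = ((M / d : ℕ) : ℝ) + 1 := by push_cast; rfl
    _ ≤ M * (1 / (d : ℝ)) + 1 := by rw [mul_one_div]; linarith

theorem swap (P : Finset ℕ) (hP : ∀ p ∈ P, p.Prime) (α β : ℕ) (hα : ∀ p ∈ P, ¬ p ∣ α) (M : ℕ)
    (c' : ℝ) (hc' : 0 ≤ c') :
    ∑ x ∈ Icc 1 M, ∏ p ∈ P.filter (fun p => p ∣ ((α : ℤ) * (x : ℤ) - (β : ℤ)).natAbs),
      (1 + c' / p) ≤ M * ∏ p ∈ P, (1 + c' / (p : ℝ) ^ 2) + ∏ p ∈ P, (1 + c' / (p : ℝ)) := by
  have h1 : ∀ x : ℕ, ∏ p ∈ P.filter (fun p => p ∣ ((α : ℤ) * (x : ℤ) - (β : ℤ)).natAbs),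
      (1 + c' / (p : ℝ)) = ∑ s ∈ P.powerset, if (∀ p ∈ s, p ∣ ((α : ℤ) * (x : ℤ) -
        (β : ℤ)).natAbs) then ∏ p ∈ s, (c' / (p : ℝ)) else 0 := by
    intro x
    rw [Finset.prod_one_add, ← Finset.sum_filter]
    refine Finset.sum_congr ?_ fun _ _ => rfl
    ext s
    simp only [Finset.mem_powerset, Finset.mem_filter, Finset.subset_iff]
    exact ⟨fun h => ⟨fun p hp => (h hp).1, fun p hp => (h hp).2⟩,
      fun h p hp => ⟨h.1 hp, h.2 p hp⟩⟩
  simp_rw [h1]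
  rw [Finset.sum_comm, Finset.prod_one_add, Finset.prod_one_add, Finset.mul_sum,
    ← Finset.sum_add_distrib]
  refine Finset.sum_le_sum fun s hs => ?_
  rw [Finset.mem_powerset] at hs
  rw [← Finset.sum_filter, Finset.sum_const, nsmul_eq_mul]
  have h2 := count s (fun p hp => hP p (hs hp)) α β (fun p hp => hα p (hs hp)) M
  have h3 : 0 ≤ ∏ p ∈ s, (c' / (p : ℝ)) := Finset.prod_nonneg fun p _ => by positivity
  have h4 : ∏ p ∈ s, (c' / (p : ℝ) ^ 2) = (∏ p ∈ s, (1 / (p : ℝ))) * ∏ p ∈ s, (c' / (p : ℝ)) := by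
    rw [← Finset.prod_mul_distrib]
    refine Finset.prod_congr rfl fun p _ => ?_
    ring
  rw [h4]
  calc _ ≤ (M * ∏ p ∈ s, (1 / (p : ℝ)) + 1) * ∏ p ∈ s, (c' / (p : ℝ)) :=
        mul_le_mul_of_nonneg_right h2 h3
    _ = _ := by ring

theorem prod_le_exp (P : Finset ℕ) (f : ℕ → ℝ) (hf : ∀ p, 0 ≤ f p) :
    ∏ p ∈ P, (1 + f p) ≤ Real.exp (∑ p ∈ P, f p) := by
  rw [Real.exp_sum]
  refine Finset.prod_le_prod (fun p _ => by have := hf p; linarith) fun p _ => ?_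
  have := Real.add_one_le_exp (f p)
  linarith

theorem sum_sq (P : Finset ℕ) (L : ℕ) (hP : ∀ p ∈ P, 1 ≤ p ∧ p ≤ L) :
    ∑ p ∈ P, 1 / (p : ℝ) ^ 2 ≤ 2 := by
  have h1 : P ⊆ Finset.Ioo 0 (L + 1) := fun p hp => by
    have := hP p hp
    rw [Finset.mem_Ioo]
    omega
  have h2 := sum_Ioo_inv_sq_le (α := ℝ) 0 (L + 1)
  simp only [Nat.cast_zero, zero_add, div_one] at h2
  refine le_trans ?_ h2
  simp only [one_div]
  exact Finset.sum_le_sum_of_subset_of_nonneg h1 fun p _ _ => by positivity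

theorem sum_one (P : Finset ℕ) (L : ℕ) (hP : ∀ p ∈ P, 1 ≤ p ∧ p ≤ L) :
    ∑ p ∈ P, 1 / (p : ℝ) ≤ 1 + Real.log L := by
  have h1 : P ⊆ Finset.Icc 1 L := fun p hp => by
    have := hP p hp
    rw [Finset.mem_Icc]
    omega
  have h2 := harmonic_le_one_add_log L
  rw [harmonic_eq_sum_Icc] at h2
  push_cast at h2
  refine le_trans ?_ h2
  simp only [one_div]
  exact Finset.sum_le_sum_of_subset_of_nonneg h1 fun p _ _ => by positivity

/-- small and large prime factors -/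
theorem point (c : ℝ) (hc : 0 < c) (X : ℝ) (hX : 3 ≤ X) (α m : ℕ) (hm : (m : ℝ) ≤ X ^ 4) :
    Real.exp (c * sgn α m) ≤ Real.exp (6 * c) *
      ∏ p ∈ ((Icc 1 ⌊Real.log X⌋₊).filter (fun p => p.Prime ∧ ¬ p ∣ α)).filter (fun p => p ∣ m),
        (1 + c * Real.exp c / p) := by
  set L : ℕ := ⌊Real.log X⌋₊ with hL
  have hlog : 0 < Real.log X := Real.log_pos (by linarith)
  have hprod : 1 ≤ ∏ p ∈ ((Icc 1 L).filter (fun p => p.Prime ∧ ¬ p ∣ α)).filter (fun p => p ∣ m),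
        (1 + c * Real.exp c / (p : ℝ)) := by
    have : ∏ p ∈ ((Icc 1 L).filter (fun p => p.Prime ∧ ¬ p ∣ α)).filter (fun p => p ∣ m),
        (1 : ℝ) ≤ ∏ p ∈ ((Icc 1 L).filter (fun p => p.Prime ∧ ¬ p ∣ α)).filter (fun p => p ∣ m),
        (1 + c * Real.exp c / (p : ℝ)) := by
      refine Finset.prod_le_prod (fun _ _ => zero_le_one) fun p _ => ?_
      have : 0 ≤ c * Real.exp c / (p : ℝ) := by positivity
      linarith
    rwa [Finset.prod_const_one] at this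
  rcases Nat.eq_zero_or_pos m with h0 | h0
  · subst h0
    have h1 : sgn α 0 = 0 := by simp [sgn]
    rw [h1, mul_zero, Real.exp_zero]
    have h2 : 1 ≤ Real.exp (6 * c) := Real.one_le_exp (by positivity)
    nlinarith
  · set F : Finset ℕ := m.primeFactors.filter (fun p => ¬ p ∣ α) with hF
    have hsplit : sgn α m = ∑ p ∈ F.filter (fun p => p ≤ L), (1 : ℝ) / p +
        ∑ p ∈ F.filter (fun p => ¬ p ≤ L), (1 : ℝ) / p :=
      (Finset.sum_filter_add_sum_filter_not F (fun p => p ≤ L) _).symm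
    have hbig : ∑ p ∈ F.filter (fun p => ¬ p ≤ L), (1 : ℝ) / p ≤ 6 := by
      have h1 : ∀ p ∈ F.filter (fun p => ¬ p ≤ L), (1 : ℝ) / p ≤ 1 / Real.log X := by
        intro p hp
        rw [Finset.mem_filter, not_le] at hp
        have h2 : Real.log X < p := Nat.lt_of_floor_lt hp.2
        exact one_div_le_one_div_of_le hlog h2.le
      have h2 := Finset.sum_le_card_nsmul _ _ _ h1
      rw [nsmul_eq_mul] at h2
      have h3 : ((F.filter (fun p => ¬ p ≤ L)).card : ℝ) ≤ 6 * Real.log X := by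
        refine le_trans ?_ (card_pf m h0.ne' X (by linarith) hm)
        exact_mod_cast (Finset.card_le_card (Finset.filter_subset _ _)).trans
          (Finset.card_le_card (Finset.filter_subset _ _))
      calc _ ≤ _ := h2
        _ ≤ (6 * Real.log X) * (1 / Real.log X) := by gcongr
        _ = 6 := by field_simp
    have hset : F.filter (fun p => p ≤ L) =
        ((Icc 1 L).filter (fun p => p.Prime ∧ ¬ p ∣ α)).filter (fun p => p ∣ m) := by
      ext p
      simp only [hF, Finset.mem_filter, Nat.mem_primeFactors, Finset.mem_Icc]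
      constructor
      · rintro ⟨⟨⟨hp, hpm, _⟩, hpα⟩, hpL⟩
        exact ⟨⟨⟨hp.one_lt.le, hpL⟩, hp, hpα⟩, hpm⟩
      · rintro ⟨⟨⟨_, hpL⟩, hp, hpα⟩, hpm⟩
        exact ⟨⟨⟨hp, hpm, h0.ne'⟩, hpα⟩, hpL⟩
    rw [hsplit, mul_add, Real.exp_add, mul_comm (Real.exp (6 * c))]
    refine mul_le_mul ?_ ?_ (Real.exp_pos _).le (by linarith)
    · rw [hset, Finset.mul_sum, Real.exp_sum]
      refine Finset.prod_le_prod (fun _ _ => (Real.exp_pos _).le) fun p hp => ?_
      rw [Finset.mem_filter, Finset.mem_filter, Finset.mem_Icc] at hp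
      have hp1 : (1 : ℝ) ≤ p := by exact_mod_cast hp.1.1.1
      have h1 : c * (1 / (p : ℝ)) ≤ c := by
        have : 1 / (p : ℝ) ≤ 1 := by rw [div_le_one (by linarith)]; exact hp1
        nlinarith
      refine (exp_le c _ (by positivity) h1).trans (le_of_eq ?_)
      ring
    · apply Real.exp_le_exp.2
      nlinarith

theorem t_AVG : P_AVG := by
  intro c η hc hη
  set c' : ℝ := c * Real.exp c with hc'
  have hc'0 : 0 < c' := by positivity
  refine ⟨Real.exp (6 * c) * (Real.exp (2 * c') + 1), ?_, ?_⟩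
  · have h1 : 1 ≤ Real.exp (6 * c) := Real.one_le_exp (by positivity)
    have h2 : 0 < Real.exp (2 * c') := Real.exp_pos _
    nlinarith
  have hev : ∀ᶠ X : ℝ in atTop, Real.exp c' * Real.log X ^ c' ≤ X ^ η := by
    have h1 := (isLittleO_log_rpow_rpow_atTop c' hη).def (Real.exp_pos (-c'))
    filter_upwards [h1, eventually_ge_atTop (1 : ℝ)] with X hX hX1
    have h2 : 0 ≤ Real.log X := Real.log_nonneg hX1
    rw [Real.norm_of_nonneg (Real.rpow_nonneg h2 _),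
      Real.norm_of_nonneg (Real.rpow_nonneg (by linarith) _)] at hX
    calc Real.exp c' * Real.log X ^ c' ≤ Real.exp c' * (Real.exp (-c') * X ^ η) :=
          mul_le_mul_of_nonneg_left hX (Real.exp_pos _).le
      _ = X ^ η := by rw [← mul_assoc, ← Real.exp_add, add_neg_cancel, Real.exp_zero, one_mul]
  filter_upwards [hev, eventually_ge_atTop (3 : ℝ)] with X hX hX3 M hM1 hM2 α β hα1 hα2 hβ
  have hlog1 : 1 ≤ Real.log X := by
    rw [Real.le_log_iff_exp_le (by linarith)]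
    exact Real.exp_one_lt_three.le.trans hX3
  have hlog : 0 < Real.log X := by linarith
  set L : ℕ := ⌊Real.log X⌋₊ with hL
  set P : Finset ℕ := (Icc 1 L).filter (fun p => p.Prime ∧ ¬ p ∣ α) with hP
  have hPL : ∀ p ∈ P, 1 ≤ p ∧ p ≤ L := by
    intro p hp
    rw [hP, Finset.mem_filter, Finset.mem_Icc] at hp
    exact hp.1
  have hpt : ∀ x ∈ Icc 1 M, Real.exp (c * sgn α (((α : ℤ) * (x : ℤ) - (β : ℤ)).natAbs)) ≤
      Real.exp (6 * c) * ∏ p ∈ P.filter (fun p => p ∣ ((α : ℤ) * (x : ℤ) - (β : ℤ)).natAbs),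
        (1 + c' / p) := by
    intro x hx
    rw [Finset.mem_Icc] at hx
    refine point c hc X hX3 α _ ?_
    have hxM : (x : ℝ) ≤ X := le_trans (by exact_mod_cast hx.2) hM2
    have e : ((((α : ℤ) * (x : ℤ) - (β : ℤ)).natAbs : ℕ) : ℝ) = |(α : ℝ) * x - β| := by
      rw [Nat.cast_natAbs]
      push_cast
      rfl
    rw [e]
    have hx0 : (0 : ℝ) ≤ x := Nat.cast_nonneg _
    have hα0 : (0 : ℝ) ≤ α := Nat.cast_nonneg _
    have hβ0 : (0 : ℝ) ≤ β := Nat.cast_nonneg _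
    have h1 : (α : ℝ) * x ≤ X ^ 2 * X := mul_le_mul hα2 hxM hx0 (by positivity)
    have h2 : 0 ≤ (α : ℝ) * x := by positivity
    have h3 : X ^ 2 * X ≤ X ^ 4 := by
      have : X ^ 4 = X ^ 2 * X * X := by ring
      rw [this]
      have : 0 ≤ X ^ 2 * X := by positivity
      nlinarith
    have h4 : X ^ 2 ≤ X ^ 4 := by
      have : X ^ 4 = X ^ 2 * X ^ 2 := by ring
      rw [this]
      have : 1 ≤ X ^ 2 := by nlinarith
      nlinarith
    rw [abs_le]
    constructor <;> linarith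
  have h1 := swap P (fun p hp => ((Finset.mem_filter.1 hp).2).1) α β
    (fun p hp => ((Finset.mem_filter.1 hp).2).2) M c' hc'0.le
  have h2 : ∏ p ∈ P, (1 + c' / (p : ℝ) ^ 2) ≤ Real.exp (2 * c') := by
    refine (prod_le_exp P (fun p => c' / (p : ℝ) ^ 2) (fun p => by positivity)).trans ?_
    apply Real.exp_le_exp.2
    have h3 : ∑ p ∈ P, c' / (p : ℝ) ^ 2 = c' * ∑ p ∈ P, 1 / (p : ℝ) ^ 2 := by
      rw [Finset.mul_sum]
      refine Finset.sum_congr rfl fun p _ => ?_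
      ring
    rw [h3]
    have := sum_sq P L hPL
    nlinarith
  have h3 : ∏ p ∈ P, (1 + c' / (p : ℝ)) ≤ M := by
    refine le_trans ?_ hM1
    refine le_trans ?_ hX
    refine (prod_le_exp P (fun p => c' / (p : ℝ)) (fun p => by positivity)).trans ?_
    have h4 : ∑ p ∈ P, c' / (p : ℝ) = c' * ∑ p ∈ P, 1 / (p : ℝ) := by
      rw [Finset.mul_sum]
      refine Finset.sum_congr rfl fun p _ => ?_
      ring
    rw [h4]
    have hL1 : 1 ≤ L := by
      rw [hL]
      exact Nat.le_floor (by simpa using hlog1)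
    have hL0 : (0 : ℝ) < L := by exact_mod_cast hL1
    have h5 := sum_one P L hPL
    have h6 : Real.log L ≤ Real.log (Real.log X) := Real.log_le_log hL0 (Nat.floor_le hlog.le)
    rw [Real.rpow_def_of_pos hlog, ← Real.exp_add]
    apply Real.exp_le_exp.2
    nlinarith
  calc ∑ x ∈ Icc 1 M, Real.exp (c * sgn α (((α : ℤ) * (x : ℤ) - (β : ℤ)).natAbs)) ≤
        ∑ x ∈ Icc 1 M, Real.exp (6 * c) * ∏ p ∈ P.filter (fun p => p ∣ ((α : ℤ) * (x : ℤ) -
          (β : ℤ)).natAbs), (1 + c' / p) := Finset.sum_le_sum hpt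
    _ = Real.exp (6 * c) * ∑ x ∈ Icc 1 M, ∏ p ∈ P.filter (fun p => p ∣ ((α : ℤ) * (x : ℤ) -
          (β : ℤ)).natAbs), (1 + c' / p) := by rw [Finset.mul_sum]
    _ ≤ Real.exp (6 * c) * (M * Real.exp (2 * c') + M) := by
        apply mul_le_mul_of_nonneg_left _ (Real.exp_pos _).le
        refine h1.trans (add_le_add ?_ h3)
        exact mul_le_mul_of_nonneg_left h2 (Nat.cast_nonneg _)
    _ = Real.exp (6 * c) * (Real.exp (2 * c') + 1) * M := by ring

end Pool.Agent.Y185.DK.AV
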