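import Pool.Agent.Y851.DK.Stm

/-!
# Project DK: the moment bound from the bound for one variable
-/

set_option autoImplicit false

namespace Pool.Agent.Y185.DK

open Finset Filter Pool.Agent.Y851.DK

theorem sg_nonneg (m : ℕ) : 0 ≤ sg m := Finset.sum_nonneg fun p _ => by positivity

theorem sg_le (α m : ℕ) (hα : 1 ≤ α) : sg m ≤ sg α + sgn α m := by
  unfold sg sgn
  rw [← Finset.sum_filter_add_sum_filter_not m.primeFactors (fun p => p ∣ α)]
  refine add_le_add (Finset.sum_le_sum_of_subset_of_nonneg ?_ fun p _ _ => by positivity) le_rfl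
  intro p hp
  rw [Finset.mem_filter] at hp
  exact Nat.mem_primeFactors.2 ⟨Nat.prime_of_mem_primeFactors hp.1, hp.2, by omega⟩

theorem sgn_one (m : ℕ) : sgn 1 m = sg m := by
  unfold sg sgn
  congr 1
  rw [Finset.filter_eq_self]
  intro p hp h
  exact (Nat.prime_of_mem_primeFactors hp).one_lt.ne' (Nat.dvd_one.1 h)

theorem exp_max {ι : Type*} (s : Finset ι) (S : ι → ℝ) (hS : ∀ i ∈ s, 0 ≤ S i) (c : ℝ)
    (hc : 0 < c) :
    Real.exp (c * ∑ i ∈ s, S i) ≤ 1 + ∑ i ∈ s, Real.exp (c * (s.card + 1) * S i) := by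
  rcases s.eq_empty_or_nonempty with h | h
  · subst h
    simp
  · obtain ⟨m, hm, hmax⟩ := s.exists_max_image S h
    have h1 : ∑ i ∈ s, S i ≤ (s.card + 1) * S m := by
      have := Finset.sum_le_card_nsmul s S (S m) hmax
      rw [nsmul_eq_mul] at this
      nlinarith [hS m hm]
    have h2 : Real.exp (c * ∑ i ∈ s, S i) ≤ Real.exp (c * (s.card + 1) * S m) := by
      apply Real.exp_le_exp.2
      rw [mul_assoc]
      exact mul_le_mul_of_nonneg_left h1 hc.le
    have h3 : Real.exp (c * (s.card + 1) * S m) ≤ ∑ i ∈ s, Real.exp (c * (s.card + 1) * S i) :=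
      Finset.single_le_sum (f := fun i => Real.exp (c * (s.card + 1) * S i))
        (fun i _ => (Real.exp_pos _).le) hm
    linarith

theorem upd {k : ℕ} (S : Finset ℕ) (g : (Fin k → ℕ) → ℝ) (j : Fin k) (K : ℝ)
    (h : ∀ b ∈ Fintype.piFinset (fun _ : Fin k => S), ∑ x ∈ S, g (Function.update b j x) ≤ K) :
    (S.card : ℝ) * ∑ b ∈ Fintype.piFinset (fun _ : Fin k => S), g b ≤ (S.card : ℝ) ^ k * K := by
  have hmem : ∀ p ∈ Fintype.piFinset (fun _ : Fin k => S) ×ˢ S,
      (Function.update p.1 j p.2, p.1 j) ∈ Fintype.piFinset (fun _ : Fin k => S) ×ˢ S := by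
    intro p hp
    rw [Finset.mem_product, Fintype.mem_piFinset] at hp ⊢
    refine ⟨fun i => ?_, hp.1 j⟩
    by_cases hi : i = j
    · subst hi
      simpa using hp.2
    · simpa [Function.update_of_ne hi] using hp.1 i
  have h1 : ∑ p ∈ Fintype.piFinset (fun _ : Fin k => S) ×ˢ S, g (Function.update p.1 j p.2) =
      ∑ p ∈ Fintype.piFinset (fun _ : Fin k => S) ×ˢ S, g p.1 := by
    refine Finset.sum_nbij' (fun p => (Function.update p.1 j p.2, p.1 j))
      (fun p => (Function.update p.1 j p.2, p.1 j)) hmem hmem ?_ ?_ ?_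
    · intro p _
      simp
    · intro p _
      simp
    · intro p _
      rfl
  rw [Finset.sum_product, Finset.sum_product] at h1
  have h2 : ∑ b ∈ Fintype.piFinset (fun _ : Fin k => S), ∑ x ∈ S, g (Function.update b j x) ≤
      ∑ _b ∈ Fintype.piFinset (fun _ : Fin k => S), K := Finset.sum_le_sum h
  rw [h1, Finset.sum_const, Fintype.card_piFinset_const, nsmul_eq_mul] at h2
  simp only [Finset.sum_const, nsmul_eq_mul] at h2
  rw [← Finset.mul_sum] at h2
  push_cast at h2
  exact h2

theorem t_MOM : P_AVG → P_MOM := by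
  intro hA k c η T hc hη
  set s : Finset (Fin k ⊕ (Fin k × Fin k)) := Finset.univ with hs
  set c' : ℝ := c * (s.card + 1) with hc'
  have hc'0 : 0 < c' := by positivity
  obtain ⟨C, hC1, hC⟩ := hA c' η hc'0 hη
  set C' : ℝ := Real.exp (c' * |T|) * C with hC'
  have hexp1 : 1 ≤ Real.exp (c' * |T|) := Real.one_le_exp (by positivity)
  have hC'1 : 1 ≤ C' := by nlinarith
  have hCC' : C ≤ C' := by nlinarith
  refine ⟨Real.exp (c * (k * |T|)) * (1 + s.card * C'), ?_, ?_⟩
  · have h1 : 1 ≤ Real.exp (c * (k * |T|)) := Real.one_le_exp (by positivity)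
    have h2 : 1 ≤ 1 + (s.card : ℝ) * C' := by
      have : 0 ≤ (s.card : ℝ) * C' := by positivity
      linarith
    nlinarith
  filter_upwards [hC, eventually_ge_atTop (1 : ℝ)] with X hX hX1 M hM1 hM2 a ha
  have hM0 : (0 : ℝ) < M := lt_of_lt_of_le (Real.rpow_pos_of_pos (by linarith) _) hM1
  have hcard : (Icc 1 M).card = M := by rw [Nat.card_Icc]; omega
  -- the terms
  set S : (Fin k → ℕ) → Fin k ⊕ (Fin k × Fin k) → ℝ := fun b =>
    Sum.elim (fun j => sg (b j))
      (fun p => sg (((a p.1 : ℤ) * (b p.2 : ℤ) - (a p.2 : ℤ) * (b p.1 : ℤ)).natAbs)) with hS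
  have hS0 : ∀ b i, 0 ≤ S b i := by
    intro b i
    rcases i with i | i <;> exact sg_nonneg _
  have hsum : ∀ b : Fin k → ℕ, ∑ i ∈ s, S b i = ∑ j, sg (b j) +
      ∑ i, ∑ j, sg (((a i : ℤ) * (b j : ℤ) - (a j : ℤ) * (b i : ℤ)).natAbs) := by
    intro b
    rw [hs, Fintype.sum_sum_type, Fintype.sum_prod_type]
    rfl
  have ha1 : ∑ j, sg (a j) ≤ k * |T| := by
    have h1 : ∑ j, sg (a j) ≤ ∑ _j : Fin k, |T| :=
      Finset.sum_le_sum fun j _ => (ha j).2.2.trans (le_abs_self T)
    simpa using h1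
  -- every term
  have hterm : ∀ i ∈ s, ∑ b ∈ Fintype.piFinset (fun _ : Fin k => Icc 1 M), Real.exp (c' * S b i) ≤
      C' * (M : ℝ) ^ k := by
    have hfin : ∀ (j : Fin k) (i : Fin k ⊕ (Fin k × Fin k)),
        (∀ b ∈ Fintype.piFinset (fun _ : Fin k => Icc 1 M),
          ∑ x ∈ Icc 1 M, Real.exp (c' * S (Function.update b j x) i) ≤ C' * M) →
        ∑ b ∈ Fintype.piFinset (fun _ : Fin k => Icc 1 M), Real.exp (c' * S b i) ≤
          C' * (M : ℝ) ^ k := by
      intro j i h
      have h1 := upd (Icc 1 M) (fun b => Real.exp (c' * S b i)) j (C' * M) h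
      rw [hcard] at h1
      refine le_of_mul_le_mul_left ?_ hM0
      calc (M : ℝ) * ∑ b ∈ Fintype.piFinset (fun _ : Fin k => Icc 1 M), Real.exp (c' * S b i) ≤
            (M : ℝ) ^ k * (C' * M) := h1
        _ = M * (C' * (M : ℝ) ^ k) := by ring
    intro i _
    rcases i with j | ⟨i, j⟩
    · refine hfin j (Sum.inl j) fun b _ => ?_
      have hX2 : (1 : ℝ) ≤ X ^ 2 := one_le_pow₀ hX1
      have h1 := hX M hM1 hM2 1 0 le_rfl (by rw [Nat.cast_one]; exact hX2)
        (by rw [Nat.cast_zero]; linarith)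
      refine le_trans (le_of_eq ?_) (h1.trans (mul_le_mul_of_nonneg_right hCC' hM0.le))
      refine Finset.sum_congr rfl fun x _ => ?_
      rw [sgn_one]
      simp [hS]
    · by_cases hij : i = j
      · subst hij
        have h1 : ∀ b, Real.exp (c' * S b (Sum.inr (i, i))) = 1 := by
          intro b
          simp [hS, sg]
        simp only [h1]
        rw [Finset.sum_const, Fintype.card_piFinset_const, hcard, nsmul_eq_mul, mul_one]
        push_cast
        have : (0 : ℝ) ≤ (M : ℝ) ^ k := by positivity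
        nlinarith
      · refine hfin j (Sum.inr (i, j)) fun b hb => ?_
        have hbi : b i ∈ Icc 1 M := Fintype.mem_piFinset.1 hb i
        rw [Finset.mem_Icc] at hbi
        have hbM : (b i : ℝ) ≤ M := by exact_mod_cast hbi.2
        have h1 := hX M hM1 hM2 (a i) (a j * b i) (ha i).1 (by
          have := (ha i).2.1
          nlinarith) (by
          push_cast
          have h2 := (ha j).2.1
          have h3 : (0 : ℝ) ≤ a j := Nat.cast_nonneg _
          have h4 : (0 : ℝ) ≤ b i := Nat.cast_nonneg _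
          calc (a j : ℝ) * b i ≤ X * X := mul_le_mul h2 (hbM.trans hM2) h4 (by linarith)
            _ = X ^ 2 := by ring)
        have h2 : ∀ x : ℕ, Real.exp (c' * S (Function.update b j x) (Sum.inr (i, j))) ≤
            Real.exp (c' * |T|) * Real.exp (c' * sgn (a i)
              (((a i : ℤ) * (x : ℤ) - ((a j * b i : ℕ) : ℤ)).natAbs)) := by
          intro x
          rw [← Real.exp_add, ← mul_add]
          apply Real.exp_le_exp.2
          apply mul_le_mul_of_nonneg_left _ hc'0.le
          have e : S (Function.update b j x) (Sum.inr (i, j)) =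
              sg (((a i : ℤ) * (x : ℤ) - ((a j * b i : ℕ) : ℤ)).natAbs) := by
            simp only [hS, Sum.elim_inr, Function.update_self, Function.update_of_ne hij]
            push_cast
            rfl
          rw [e]
          refine (sg_le (a i) _ (ha i).1).trans ?_
          have := (ha i).2.2.trans (le_abs_self T)
          linarith
        calc ∑ x ∈ Icc 1 M, Real.exp (c' * S (Function.update b j x) (Sum.inr (i, j))) ≤
              ∑ x ∈ Icc 1 M, Real.exp (c' * |T|) * Real.exp (c' * sgn (a i)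
              (((a i : ℤ) * (x : ℤ) - ((a j * b i : ℕ) : ℤ)).natAbs)) :=
              Finset.sum_le_sum fun x _ => h2 x
          _ = Real.exp (c' * |T|) * ∑ x ∈ Icc 1 M, Real.exp (c' * sgn (a i)
              (((a i : ℤ) * (x : ℤ) - ((a j * b i : ℕ) : ℤ)).natAbs)) := by rw [Finset.mul_sum]
          _ ≤ Real.exp (c' * |T|) * (C * M) :=
              mul_le_mul_of_nonneg_left h1 (Real.exp_pos _).le
          _ = C' * M := by rw [hC']; ring
  -- conclusion
  have hpt : ∀ b : Fin k → ℕ, Real.exp (c * (∑ j, sg (a j) + ∑ j, sg (b j) +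
      ∑ i, ∑ j, sg (((a i : ℤ) * (b j : ℤ) - (a j : ℤ) * (b i : ℤ)).natAbs))) ≤
      Real.exp (c * (k * |T|)) * (1 + ∑ i ∈ s, Real.exp (c' * S b i)) := by
    intro b
    rw [add_assoc, ← hsum b, mul_add, Real.exp_add]
    refine mul_le_mul ?_ (exp_max s (S b) (fun i _ => hS0 b i) c hc) (Real.exp_pos _).le
      (Real.exp_pos _).le
    exact Real.exp_le_exp.2 (mul_le_mul_of_nonneg_left ha1 hc.le)
  refine (Finset.sum_le_sum fun b _ => hpt b).trans ?_
  rw [← Finset.mul_sum, Finset.sum_add_distrib, Finset.sum_comm, mul_assoc]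
  refine mul_le_mul_of_nonneg_left ?_ (Real.exp_pos _).le
  rw [Finset.sum_const, Fintype.card_piFinset_const, hcard, nsmul_eq_mul, mul_one, add_mul, one_mul]
  push_cast
  refine add_le_add le_rfl ?_
  calc ∑ i ∈ s, ∑ b ∈ Fintype.piFinset (fun _ : Fin k => Icc 1 M), Real.exp (c' * S b i) ≤
        ∑ _i ∈ s, C' * (M : ℝ) ^ k := Finset.sum_le_sum hterm
    _ = s.card * C' * (M : ℝ) ^ k := by rw [Finset.sum_const, nsmul_eq_mul]; ring

end Pool.Agent.Y185.DK
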